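import Pool.Agent.helper29.RS.SpecK
import Pool.Agent.helper62.QU.All

/-!
# MP_07c750, rare scars: row FL4 (Green's formula for the packets)
-/

set_option autoImplicit false

open scoped MatrixGroups ContDiff Topology UpperHalfPlane ComplexConjugate
open UpperHalfPlane MeasureTheory Filter Set

namespace Pool.Agent.RS

theorem FL4_open (z : ℍ) : {w : ℂ | 0 < w.im} ∈ 𝓝 (z : ℂ) :=
  (isOpen_lt continuous_const Complex.continuous_im).mem_nhds z.im_pos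

theorem FL4_onC {E : Type} (φ : ℍ → E) (z : ℍ) : QU.onC φ (z : ℂ) = φ z := by
  unfold QU.onC
  rw [ofComplex_apply]

theorem FL4_diff {E : Type} [NormedAddCommGroup E] [NormedSpace ℝ E] {φ : ℍ → E} (h : QU.CD 1 φ) (z : ℍ) :
    DifferentiableAt ℝ (QU.onC φ) (z : ℂ) := by
  have h1 : ContDiffOn ℝ 1 (QU.onC φ) {w : ℂ | 0 < w.im} := h
  exact (h1.contDiffAt (FL4_open z)).differentiableAt one_ne_zero

theorem FL4_mul (φ u : ℍ → ℂ) (hφ : QU.CD 1 φ) (hu : QU.CD 1 u) (v : ℂ) (z : ℍ) :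
    fderiv ℝ (QU.onC (fun z => φ z * u z)) z v =
      φ z * fderiv ℝ (QU.onC u) z v + fderiv ℝ (QU.onC φ) z v * u z := by
  have h1 : QU.onC (fun z => φ z * u z) = fun w => QU.onC φ w * QU.onC u w := rfl
  rw [h1, fderiv_fun_mul (FL4_diff hφ z) (FL4_diff hu z)]
  simp only [ContinuousLinearMap.add_apply, ContinuousLinearMap.smul_apply, smul_eq_mul, FL4_onC]
  ring

theorem FL4_mulX (φ u : ℍ → ℂ) (hφ : QU.CD 1 φ) (hu : QU.CD 1 u) (z : ℍ) :
    QU.dX (fun z => φ z * u z) z = φ z * QU.dX u z + QU.dX φ z * u z := by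
  unfold QU.dX
  rw [FL4_mul φ u hφ hu]
  simp only [Complex.real_smul]
  ring

theorem FL4_mulY (φ u : ℍ → ℂ) (hφ : QU.CD 1 φ) (hu : QU.CD 1 u) (z : ℍ) :
    QU.dY (fun z => φ z * u z) z = φ z * QU.dY u z + QU.dY φ z * u z := by
  unfold QU.dY
  rw [FL4_mul φ u hφ hu]
  simp only [Complex.real_smul]
  ring

/-- the function `y^a` -/
noncomputable def FL4_u (a : ℂ) (z : ℍ) : ℂ := ((z.im : ℝ) : ℂ) ^ a

theorem FL4_ueq (a : ℂ) (w : ℂ) (hw : 0 < w.im) :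
    QU.onC (FL4_u a) w = Complex.exp (((Real.log w.im : ℝ) : ℂ) * a) := by
  unfold QU.onC FL4_u
  have h1 : (ofComplex w).im = w.im := by
    rw [ofComplex_apply_of_im_pos hw]
    rfl
  rw [h1, Complex.cpow_def_of_ne_zero (by exact_mod_cast hw.ne'), Complex.ofReal_log hw.le]

theorem FL4_uCD (a : ℂ) : QU.CD ∞ (FL4_u a) := by
  have h : ContDiffOn ℝ ∞ (fun w : ℂ => Complex.exp (((Real.log w.im : ℝ) : ℂ) * a)) {w : ℂ | 0 < w.im} := by
    have h1 : ContDiffOn ℝ ∞ (fun w : ℂ => Real.log w.im) {w : ℂ | 0 < w.im} := by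
      refine ContDiffOn.log (Complex.imCLM.contDiff.contDiffOn) (fun w hw => ?_)
      exact (ne_of_gt hw)
    have h2 : ContDiffOn ℝ ∞ (fun w : ℂ => ((Real.log w.im : ℝ) : ℂ)) {w : ℂ | 0 < w.im} :=
      Complex.ofRealCLM.contDiff.comp_contDiffOn h1
    exact (h2.mul contDiffOn_const).cexp
  exact h.congr (fun w hw => FL4_ueq a w hw)

theorem FL4_ud (a : ℂ) (z : ℍ) (v : ℂ) :
    fderiv ℝ (QU.onC (FL4_u a)) z v = FL4_u a z * (a * ((z.im)⁻¹ * v.im : ℝ)) := by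
  have h1 : HasFDerivAt (fun w : ℂ => Real.log w.im) ((z.im)⁻¹ • Complex.imCLM) (z : ℂ) :=
    (Complex.imCLM.hasFDerivAt (x := (z : ℂ))).log (ne_of_gt z.im_pos)
  have h2 : HasFDerivAt (fun w : ℂ => ((Real.log w.im : ℝ) : ℂ))
      (Complex.ofRealCLM.comp ((z.im)⁻¹ • Complex.imCLM)) (z : ℂ) :=
    (Complex.ofRealCLM.hasFDerivAt (x := Real.log (z : ℂ).im)).comp (z : ℂ) h1
  have h3 := (h2.mul_const a).cexp
  have h4 : QU.onC (FL4_u a) =ᶠ[𝓝 (z : ℂ)] fun w : ℂ => Complex.exp (((Real.log w.im : ℝ) : ℂ) * a) := by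
    filter_upwards [FL4_open z] with w hw
    exact FL4_ueq a w hw
  rw [h4.fderiv_eq, h3.fderiv]
  have h5 : Complex.exp (((Real.log (z : ℂ).im : ℝ) : ℂ) * a) = FL4_u a z := by
    rw [← FL4_ueq a (z : ℂ) z.im_pos, FL4_onC]
  rw [h5]
  simp only [ContinuousLinearMap.smul_apply, ContinuousLinearMap.comp_apply, smul_eq_mul,
    Complex.imCLM_apply, Complex.ofRealCLM_apply]

theorem FL4_uX (a : ℂ) (z : ℍ) : QU.dX (FL4_u a) z = 0 := by
  unfold QU.dX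
  rw [FL4_ud]
  simp

theorem FL4_uY (a : ℂ) (z : ℍ) : QU.dY (FL4_u a) z = a * FL4_u a z := by
  unfold QU.dY
  rw [FL4_ud, Complex.I_im, mul_one, Complex.real_smul]
  have h : ((z.im : ℝ) : ℂ) ≠ 0 := by exact_mod_cast z.im_pos.ne'
  push_cast
  field_simp

theorem FL4_lap (r : ℝ) (c : ℍ → ℂ) (hc : QU.CD ∞ c) (z : ℍ) :
    QU.lap (pk r c) z = pk r (QU.lap c) z - (1 + 2 * (r : ℂ) * Complex.I) * pk r (QU.dY c) z +
      ((1 / 4 + r ^ 2 : ℝ) : ℂ) * pk r c z := by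
  obtain ⟨-, hmono, hadd, -, hder, hdadd, -, hconst, hcconst, -⟩ := QU.A_CA1 ℂ
  set a : ℂ := (1 / 2 : ℂ) + (r : ℂ) * Complex.I with ha
  have hpk : ∀ c : ℍ → ℂ, pk r c = fun z => c z * FL4_u a z := fun c => rfl
  have hu : ∀ n : WithTop ℕ∞, n ≤ ∞ → QU.CD n (FL4_u a) := fun n hn => hmono _ _ _ hn (FL4_uCD a)
  have hcn : ∀ n : WithTop ℕ∞, n ≤ ∞ → QU.CD n c := fun n hn => hmono _ _ _ hn hc
  have h1 : (1 : WithTop ℕ∞) ≤ ∞ := by exact_mod_cast (le_top : (1 : ℕ∞) ≤ ⊤)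
  have h2 : (2 : WithTop ℕ∞) ≤ ∞ := WithTop.coe_le_coe.mpr (le_top : ((2 : ℕ) : ℕ∞) ≤ ⊤)
  have hc2 : QU.CD 2 c := hcn 2 h2
  have hc1 : QU.CD 1 c := hcn 1 h1
  have hu1 : QU.CD 1 (FL4_u a) := hu 1 h1
  have hu2 : QU.CD 2 (FL4_u a) := hu 2 h2
  have hd := hder c 1 (by exact_mod_cast hc2)
  have hXc : QU.CD 1 (QU.dX c) := by exact_mod_cast hd.1
  have hYc : QU.CD 1 (QU.dY c) := by exact_mod_cast hd.2
  have hk2 : QU.CD 2 (pk r c) := ContDiffOn.mul hc2 hu2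
  have e1 := (QU.A_CA2 ℂ (pk r c) hk2 z).2
  have e2 := (QU.A_CA2 ℂ c hc2 z).2
  have hX1 : QU.dX (pk r c) = fun z => QU.dX c z * FL4_u a z := by
    funext z
    rw [hpk c, FL4_mulX c _ hc1 hu1, FL4_uX, mul_zero, zero_add]
  have hX2 : QU.dX (fun z => QU.dX c z * FL4_u a z) z = QU.dX (QU.dX c) z * FL4_u a z := by
    rw [FL4_mulX _ _ hXc hu1, FL4_uX, mul_zero, zero_add]
  have hY1 : QU.dY (pk r c) = fun z => (c z * a + QU.dY c z) * FL4_u a z := by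
    funext z
    rw [hpk c, FL4_mulY c _ hc1 hu1, FL4_uY]
    ring
  have hca : QU.CD 1 (fun z => c z * a) := ContDiffOn.mul hc1 (hcconst a 1)
  have hY3 : QU.dY (fun z => c z * a + QU.dY c z) z = QU.dY c z * a + QU.dY (QU.dY c) z := by
    rw [(hdadd _ _ hca hYc z).2, FL4_mulY c (fun _ => a) hc1 (hcconst a 1), (hconst a z).2, mul_zero, zero_add]
  have hY2 : QU.dY (fun z => (c z * a + QU.dY c z) * FL4_u a z) z =
      (c z * a + QU.dY c z) * (a * FL4_u a z) + (QU.dY c z * a + QU.dY (QU.dY c) z) * FL4_u a z := by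
    rw [FL4_mulY _ _ (hadd _ _ 1 hca hYc) hu1, FL4_uY, hY3]
  rw [e1, hX1, hX2, hY1, hY2]
  change _ = QU.lap c z * FL4_u a z - (1 + 2 * (r : ℂ) * Complex.I) * (QU.dY c z * FL4_u a z) +
      ((1 / 4 + r ^ 2 : ℝ) : ℂ) * (c z * FL4_u a z)
  rw [e2]
  have hI : Complex.I ^ 2 = -1 := Complex.I_sq
  have ha2 : a * (1 - a) = ((1 / 4 + r ^ 2 : ℝ) : ℂ) := by
    rw [ha]
    push_cast
    linear_combination (-(r : ℂ) ^ 2) * hI
  have ha3 : (1 + 2 * (r : ℂ) * Complex.I) = 2 * a := by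
    rw [ha]
    ring
  rw [← ha2, ha3]
  ring

theorem FL4_Lder (L : ℂ →L[ℝ] ℝ) (φ : ℍ → ℂ) (h : QU.CD 1 φ) (z : ℍ) :
    QU.dX (fun z => L (φ z)) z = L (QU.dX φ z) ∧ QU.dY (fun z => L (φ z)) z = L (QU.dY φ z) := by
  have h1 : HasFDerivAt (QU.onC (fun z => L (φ z))) (L.comp (fderiv ℝ (QU.onC φ) z)) (z : ℂ) :=
    (L.hasFDerivAt (x := QU.onC φ z)).comp (z : ℂ) (FL4_diff h z).hasFDerivAt
  constructor
  · change z.im • fderiv ℝ (QU.onC (fun z => L (φ z))) z 1 = L (z.im • fderiv ℝ (QU.onC φ) z 1)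
    rw [h1.fderiv, map_smul]
    rfl
  · change z.im • fderiv ℝ (QU.onC (fun z => L (φ z))) z Complex.I = L (z.im • fderiv ℝ (QU.onC φ) z Complex.I)
    rw [h1.fderiv, map_smul]
    rfl

theorem FL4_Llap (L : ℂ →L[ℝ] ℝ) (φ : ℍ → ℂ) (h : QU.CD 2 φ) (z : ℍ) :
    QU.lap (fun z => L (φ z)) z = L (QU.lap φ z) := by
  obtain ⟨-, hmono, -, -, hder, -⟩ := QU.A_CA1 ℂ
  have h1 : QU.CD 1 φ := hmono φ 1 2 (by norm_num) h
  have hd := hder φ 1 (by exact_mod_cast h)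
  have hX : QU.CD 1 (QU.dX φ) := by exact_mod_cast hd.1
  have hY : QU.CD 1 (QU.dY φ) := by exact_mod_cast hd.2
  have hL2 : QU.CD 2 (fun z => L (φ z)) := L.contDiff.comp_contDiffOn h
  rw [(QU.A_CA2 ℝ _ hL2 z).2, (QU.A_CA2 ℂ φ h z).2]
  have e1 : QU.dX (fun z => L (φ z)) = fun z => L (QU.dX φ z) := funext (fun z => (FL4_Lder L φ h1 z).1)
  have e2 : QU.dY (fun z => L (φ z)) = fun z => L (QU.dY φ z) := funext (fun z => (FL4_Lder L φ h1 z).2)
  rw [e1, e2, (FL4_Lder L _ hX z).1, (FL4_Lder L _ hY z).2, map_add, map_sub, map_neg]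

/-- Green's formula for a complex kernel -/
theorem FL4_green (k ψ : ℍ → ℂ) (hk : QU.CD ∞ k) (hψ : QU.CD 2 ψ) (hs : HasCompactSupport k)
    (hkl : Continuous (QU.lap k)) (hlψ : Continuous (QU.lap ψ)) (hkls : HasCompactSupport (QU.lap k)) :
    ∫ z : ℍ, k z * QU.lap ψ z = ∫ z : ℍ, QU.lap k z * ψ z := by
  obtain ⟨hcont, hmono, -⟩ := QU.A_CA1 ℂ
  have h2 : (2 : WithTop ℕ∞) ≤ ∞ := WithTop.coe_le_coe.mpr (le_top : ((2 : ℕ) : ℕ∞) ≤ ⊤)
  have hk2 : QU.CD 2 k := hmono _ _ _ h2 hk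
  have hkc : Continuous k := (hcont k).mp (hmono _ _ _ (by exact_mod_cast zero_le) hk)
  have hψc : Continuous ψ := (hcont ψ).mp (hmono _ _ _ (by exact_mod_cast zero_le) hψ)
  have hG : ∀ L : ℂ →L[ℝ] ℝ, ∫ z : ℍ, L (k z) • QU.lap ψ z = ∫ z : ℍ, L (QU.lap k z) • ψ z := by
    intro L
    have := QU.A_GRN ℂ (fun z => L (k z)) ψ (L.contDiff.comp_contDiffOn hk2) hψ (hs.comp_left (map_zero L))
    rw [this]
    refine integral_congr_ae (Eventually.of_forall (fun z => ?_))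
    change QU.lap (fun z => L (k z)) z • ψ z = L (QU.lap k z) • ψ z
    rw [FL4_Llap L k hk2]
  have hint : ∀ (L : ℂ →L[ℝ] ℝ) (f h : ℍ → ℂ), Continuous f → HasCompactSupport f → Continuous h →
      Integrable (fun z => L (f z) • h z) := by
    intro L f h hf hfs hh
    refine Continuous.integrable_of_hasCompactSupport ((L.continuous.comp hf).smul hh) ?_
    exact (hfs.comp_left (map_zero L)).smul_right
  have hdec : ∀ (f h : ℍ → ℂ), Continuous f → HasCompactSupport f → Continuous h →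
      ∫ z : ℍ, f z * h z = (∫ z : ℍ, Complex.reCLM (f z) • h z) + Complex.I * ∫ z : ℍ, Complex.imCLM (f z) • h z := by
    intro f h hf hfs hh
    rw [← integral_const_mul, ← integral_add (hint _ f h hf hfs hh) ((hint _ f h hf hfs hh).const_mul _)]
    refine integral_congr_ae (Eventually.of_forall (fun z => ?_))
    change f z * h z = Complex.reCLM (f z) • h z + Complex.I * (Complex.imCLM (f z) • h z)
    rw [Complex.real_smul, Complex.real_smul, Complex.reCLM_apply, Complex.imCLM_apply]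
    nth_rewrite 1 [← Complex.re_add_im (f z)]
    ring
  rw [hdec k (QU.lap ψ) hkc hs hlψ, hdec (QU.lap k) ψ hkl hkls hψc, hG Complex.reCLM, hG Complex.imCLM]

theorem FL4 (hFL0 : FL0_stmt) (hLPI : LPI_stmt) : FL4_stmt := by
  intro Γ lam r c φ hc hφ g
  obtain ⟨hφ2, -, hφl⟩ := hφ
  obtain ⟨f1, f2, f3⟩ := hFL0
  obtain ⟨-, -, hYc, -, hLc, -, -⟩ := f1 (1 / 4) c hc
  obtain ⟨hcont, hmono, -⟩ := QU.A_CA1 ℂ
  have hz : ∀ n : WithTop ℕ∞, (0 : WithTop ℕ∞) ≤ n := fun n => zero_le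
  have hT : ∀ c' : ℍ → ℂ, TB (1 / 4) c' → Continuous (pk r c') ∧ HasCompactSupport (pk r c') := by
    intro c' hc'
    obtain ⟨h1, h2⟩ := f2 (1 / 4) r c' hc'
    exact ⟨(hcont _).mp (hmono _ _ _ (hz _) h1), h2⟩
  have hψ2 : QU.CD 2 (fun z => φ (g • z)) := (hLPI φ g).1 2 hφ2
  have hψl : ∀ z, QU.lap (fun z => φ (g • z)) z = (lam : ℂ) * φ (g • z) := by
    intro z
    rw [(hLPI φ g).2 hφ2 z, hφl]
  have hψc : Continuous (fun z => φ (g • z)) := (hcont _).mp (hmono _ _ _ (hz _) hψ2)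
  have hlf : QU.lap (pk r c) = fun z => pk r (QU.lap c) z - (1 + 2 * (r : ℂ) * Complex.I) * pk r (QU.dY c) z +
      ((1 / 4 + r ^ 2 : ℝ) : ℂ) * pk r c z := funext (fun z => FL4_lap r c hc.1 z)
  obtain ⟨kc, ks⟩ := hT c hc
  obtain ⟨kYc, kYs⟩ := hT _ hYc
  obtain ⟨kLc, kLs⟩ := hT _ hLc
  have hlc : Continuous (QU.lap (pk r c)) := by
    rw [hlf]
    exact (kLc.sub (continuous_const.mul kYc)).add (continuous_const.mul kc)
  have hls : HasCompactSupport (QU.lap (pk r c)) := by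
    rw [hlf]
    exact (kLs.sub (kYs.mul_left)).add (ks.mul_left)
  have hG := FL4_green (pk r c) (fun z => φ (g • z)) (f2 (1 / 4) r c hc).1 hψ2 ks hlc
    (by
      rw [show QU.lap (fun z => φ (g • z)) = fun z => (lam : ℂ) * φ (g • z) from funext hψl]
      exact continuous_const.mul hψc) hls
  have hint : ∀ f : ℍ → ℂ, Continuous f → HasCompactSupport f → Integrable (fun z => f z * φ (g • z)) := by
    intro f hf hfs
    exact Continuous.integrable_of_hasCompactSupport (hf.mul hψc) hfs.mul_right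
  have e1 : ∫ z : ℍ, pk r c z * QU.lap (fun z => φ (g • z)) z = (lam : ℂ) * Wf (pk r c) φ g := by
    unfold Wf
    rw [← integral_const_mul]
    refine integral_congr_ae (Eventually.of_forall (fun z => ?_))
    change pk r c z * QU.lap (fun z => φ (g • z)) z = (lam : ℂ) * (pk r c z * φ (g • z))
    rw [hψl z]
    ring
  have e2 : ∫ z : ℍ, QU.lap (pk r c) z * φ (g • z) = Wf (pk r (QU.lap c)) φ g -
      (1 + 2 * (r : ℂ) * Complex.I) * Wf (pk r (QU.dY c)) φ g +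
      ((1 / 4 + r ^ 2 : ℝ) : ℂ) * Wf (pk r c) φ g := by
    unfold Wf
    have i1 := hint _ kLc kLs
    have i2 := (hint _ kYc kYs).const_mul (1 + 2 * (r : ℂ) * Complex.I)
    have i3 := (hint _ kc ks).const_mul (((1 / 4 + r ^ 2 : ℝ) : ℂ))
    have i12 : Integrable (fun z => pk r (QU.lap c) z * φ (g • z) -
        (1 + 2 * (r : ℂ) * Complex.I) * (pk r (QU.dY c) z * φ (g • z))) := i1.sub i2
    rw [← integral_const_mul, ← integral_const_mul, ← integral_sub i1 i2, ← integral_add i12 i3]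
    refine integral_congr_ae (Eventually.of_forall (fun z => ?_))
    change QU.lap (pk r c) z * φ (g • z) = pk r (QU.lap c) z * φ (g • z) -
        (1 + 2 * (r : ℂ) * Complex.I) * (pk r (QU.dY c) z * φ (g • z)) +
        ((1 / 4 + r ^ 2 : ℝ) : ℂ) * (pk r c z * φ (g • z))
    rw [FL4_lap r c hc.1 z]
    ring
  have e3 : (lam : ℂ) * Wf (pk r c) φ g = Wf (pk r (QU.lap c)) φ g -
      (1 + 2 * (r : ℂ) * Complex.I) * Wf (pk r (QU.dY c)) φ g +
      ((1 / 4 + r ^ 2 : ℝ) : ℂ) * Wf (pk r c) φ g := by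
    rw [← e1, ← e2]
    exact hG
  push_cast at e3 ⊢
  linear_combination e3

end Pool.Agent.RS
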