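import Pool.Agent.helper62.RS.SpecG
import Pool.Agent.helper62.QU.All

/-!
# MP_07c750, rare scars: row GFD (the fundamental domain of the group modulo the lattice)
-/

set_option autoImplicit false

open scoped MatrixGroups ContDiff Topology UpperHalfPlane
open UpperHalfPlane MeasureTheory Filter Set

namespace Pool.Agent.RS

theorem GFD_contI : Continuous fun g : SL(2, ℝ) => g • I := isProperMap_smul_I.continuous

/-- translates of `dG F` are fundamental domains -/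
theorem GFD_fund (hGLC : GLC_stmt) (hGMG : GMG_stmt)
    (Γ : Subgroup SL(2, ℝ)) (F : Set ℍ) (hF : QU.NiceDom Γ F) (h : SL(2, ℝ)) :
    IsFundamentalDomain Γ ((fun g : SL(2, ℝ) => g * h) ⁻¹' dG F) mG := by
  haveI := hGLC.2.1
  refine IsFundamentalDomain.mk' ?_ ?_
  · exact ((hGMG.1 F hF.meas).1.preimage (continuous_mul_const h).measurable).nullMeasurableSet
  · intro g
    obtain ⟨γ, h1, h2⟩ := hF.uniq ((g * h) • I)
    refine ⟨γ, ?_, ?_⟩
    · change (((γ : SL(2, ℝ)) * g) * h) • I ∈ F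
      rw [mul_assoc, mul_smul]
      exact h1
    · intro γ' hγ'
      refine h2 γ' ?_
      have h3 : (((γ' : SL(2, ℝ)) * g) * h) • I ∈ F := hγ'
      rw [mul_assoc, mul_smul] at h3
      exact h3

theorem GFD_inv (hGLC : GLC_stmt) (hGLI : GLI_stmt) (Γ : Subgroup SL(2, ℝ)) :
    SMulInvariantMeasure Γ SL(2, ℝ) mG := by
  haveI := hGLC.2.1
  constructor
  intro γ s hs
  have h1 := hGLI (γ : SL(2, ℝ))
  have h2 : Measure.map (fun g => (γ : SL(2, ℝ)) * g) mG s = mG s := by rw [h1]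
  rw [Measure.map_apply (continuous_const_mul _).measurable hs] at h2
  exact h2

theorem GFD_right (hGLC : GLC_stmt) (hGMG : GMG_stmt) (hGLI : GLI_stmt) (hGRI : GRI_stmt)
    (Γ : Subgroup SL(2, ℝ)) (F : Set ℍ) (hΓ : QU.SurfaceGroup Γ) (hF : QU.NiceDom Γ F)
    {E : Type} [NormedAddCommGroup E] [NormedSpace ℝ E] [CompleteSpace E]
    (u : SL(2, ℝ) → E) (h : SL(2, ℝ)) (hu : ∀ (γ : Γ) g, u ((γ : SL(2, ℝ)) * g) = u g) :
    ∫ g in dG F, u (g * h) ∂mG = ∫ g in dG F, u g ∂mG := by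
  haveI := hGLC.2.1
  haveI := GFD_inv hGLC hGLI Γ
  haveI : Countable Γ := (QU.A_DOB Γ F hΓ hF).1
  have hmp : MeasurePreserving (fun g : SL(2, ℝ) => g * h) mG mG :=
    ⟨(continuous_mul_const h).measurable, hGRI h⟩
  have hemb : MeasurableEmbedding (fun g : SL(2, ℝ) => g * h) :=
    (Homeomorph.mulRight h).measurableEmbedding
  have e1 : dG F = (fun g : SL(2, ℝ) => g * h) ⁻¹' ((fun g : SL(2, ℝ) => g * h⁻¹) ⁻¹' dG F) := by
    ext g
    simp only [mem_preimage, mul_inv_cancel_right]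
  have e2 : ∫ g in dG F, u (g * h) ∂mG = ∫ g in (fun g : SL(2, ℝ) => g * h⁻¹) ⁻¹' dG F, u g ∂mG := by
    have := hmp.setIntegral_preimage_emb hemb u ((fun g : SL(2, ℝ) => g * h⁻¹) ⁻¹' dG F)
    rw [← e1] at this
    exact this
  rw [e2]
  have f1 := GFD_fund hGLC hGMG Γ F hF h⁻¹
  have f2 := GFD_fund hGLC hGMG Γ F hF 1
  have e3 : (fun g : SL(2, ℝ) => g * 1) ⁻¹' dG F = dG F := by
    ext g
    simp only [mem_preimage, mul_one]
  rw [e3] at f2
  exact f1.setIntegral_eq f2 hu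

theorem GFD_proj (hGLC : GLC_stmt) (hGMG : GMG_stmt)
    (Γ : Subgroup SL(2, ℝ)) (F : Set ℍ) (hF : QU.NiceDom Γ F)
    {E : Type} [NormedAddCommGroup E] [NormedSpace ℝ E] [CompleteSpace E]
    (v : ℍ → E) (hv : Continuous v) :
    ∫ g in dG F, v (g • I) ∂mG = ∫ z in F, v z := by
  have h1 := (hGMG.2.2.2.2 E (fun g => v (g • I)) F (hv.comp GFD_contI) hF.meas hF.rel).2
  rw [h1]
  refine setIntegral_congr_fun hF.meas (fun z _ => ?_)
  have hk : ∀ θ, kM θ • I = I := hGLC.2.2.2.2.2.2.2.2.2.2.2.2.2.2.2.1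
  have h2 : ∀ θ : ℝ, v ((toSL2R z * kM θ) • I) = v z := by
    intro θ
    rw [mul_smul, hk, toSL2R_smul_I]
  simp only [h2]
  rw [intervalIntegral.integral_const, sub_zero, smul_smul, inv_mul_cancel₀ (by positivity), one_smul]

theorem GFD (hGLC : GLC_stmt) (hGMG : GMG_stmt) (hGLI : GLI_stmt) (hGRI : GRI_stmt) : GFD_stmt := by
  intro Γ F hΓ hF
  refine ⟨⟨(hGMG.1 F hF.meas).1, (hGMG.1 F hF.meas).2, ?_, ?_⟩, ?_⟩
  · rw [(hGMG.1 F hF.meas).2]
    exact (QU.A_DOB Γ F hΓ hF).2.2.2.1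
  · obtain ⟨K, hK, hFK⟩ := hF.rel
    exact ⟨_, hGLC.2.2.1 K hK, fun g hg => hFK hg⟩
  · intro E _ _ _
    refine ⟨fun u h hu => GFD_right hGLC hGMG hGLI hGRI Γ F hΓ hF u h hu,
      fun v hv => GFD_proj hGLC hGMG Γ F hF v hv, fun v z hv hinv => ?_⟩
    have h1 := GFD_right hGLC hGMG hGLI hGRI Γ F hΓ hF (fun g => v (g • I)) (toSL2R z) (fun γ g => by
      change v (((γ : SL(2, ℝ)) * g) • I) = v (g • I)
      rw [mul_smul]
      exact hinv γ (g • I))
    rw [GFD_proj hGLC hGMG Γ F hF v hv] at h1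
    rw [← h1]
    simp only [mul_smul, toSL2R_smul_I]

end Pool.Agent.RS
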