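import Pool.Agent.helper62.RS.SpecQ
import Pool.Agent.helper62.QU.All

/-!
# MP_07c750, rare scars: row QEF (the exceptional set of quantum ergodicity)
-/

set_option autoImplicit false

open scoped MatrixGroups ContDiff Topology UpperHalfPlane ComplexConjugate
open UpperHalfPlane MeasureTheory Filter Set

namespace Pool.Agent.RS

theorem QEF_cont (hGLC : GLC_stmt) (h : ℍ → ℝ) (hh : Continuous h) (θ T : ℝ) :
    Continuous (fun g : SL(2, ℝ) => Real.exp (∫ t in (0 : ℝ)..T, θ * h ((g * aM t) • I))) := by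
  have := hGLC.2.1
  have h1 : Continuous (fun p : SL(2, ℝ) × ℝ => (p.1 * aM p.2) • I) :=
    isProperMap_smul_I.continuous.comp (continuous_fst.mul (hGLC.2.2.2.1.comp continuous_snd))
  have h2 : Continuous (Function.uncurry fun (g : SL(2, ℝ)) (t : ℝ) => θ * h ((g * aM t) • I)) :=
    continuous_const.mul (hh.comp h1)
  exact Real.continuous_exp.comp (intervalIntegral.continuous_parametric_intervalIntegral_of_continuous' h2 0 T)

theorem QEF_iR (hGLC : GLC_stmt) (hGFD : GFD_stmt) (Γ : Subgroup SL(2, ℝ)) (F₀ : Set ℍ)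
    (hΓ : QU.SurfaceGroup Γ) (hF₀ : QU.NiceDom Γ F₀) (h : ℍ → ℝ) (hh : QU.Inv Γ h) (θ P T : ℝ) (hT : 0 ≤ T)
    (hθ : 0 < θ)
    (hb : ∀ g : SL(2, ℝ), ∫ v in (0 : ℝ)..1, Real.exp (θ * ∫ t in (0 : ℝ)..T, h ((g * lM v * aM t) • I)) ≤ P) :
    iR F₀ (fun g => Real.exp (∫ t in (0 : ℝ)..T, θ * h ((g * aM t) • I))) ≤ P * (volume F₀).toReal := by
  have i2 := hGLC.2.1
  obtain ⟨⟨hdm, hdv, hdt, -⟩, hG⟩ := hGFD Γ F₀ hΓ hF₀
  set G : SL(2, ℝ) → ℝ := fun g => Real.exp (∫ t in (0 : ℝ)..T, θ * h ((g * aM t) • I)) with hGdef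
  have hGc : Continuous G := QEF_cont hGLC h hh.1 θ T
  obtain ⟨m, hm⟩ := (QU.A_BDD Γ F₀ h hΓ hF₀ hh).1
  have hm0 : 0 ≤ m := (abs_nonneg _).trans (hm I)
  have hGb : ∀ g, ‖G g‖ ≤ Real.exp (θ * m * T) := by
    intro g
    rw [Real.norm_eq_abs, abs_of_pos (Real.exp_pos _)]
    refine Real.exp_le_exp.mpr ?_
    have h1 : ‖∫ t in (0 : ℝ)..T, θ * h ((g * aM t) • I)‖ ≤ (θ * m) * |T - 0| := by
      refine intervalIntegral.norm_integral_le_of_norm_le_const (fun t _ => ?_)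
      rw [norm_mul, Real.norm_eq_abs, Real.norm_eq_abs, abs_of_pos hθ]
      exact mul_le_mul_of_nonneg_left (hm _) hθ.le
    rw [sub_zero, abs_of_nonneg hT] at h1
    exact (Real.le_norm_self _).trans h1
  have hGi : ∀ (γ : Γ) g, G ((γ : SL(2, ℝ)) * g) = G g := by
    intro γ g
    have h1 : ∀ t : ℝ, h ((((γ : SL(2, ℝ)) * g) * aM t) • I) = h ((g * aM t) • I) := by
      intro t
      rw [mul_assoc, mul_smul]
      exact hh.2 γ _
    simp only [hGdef, h1]
  -- the finite measures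
  have f1 : IsFiniteMeasure (mG.restrict (dG F₀)) := ⟨by rw [Measure.restrict_apply_univ]; exact hdt⟩
  have hGc2 : Continuous (Function.uncurry fun (v : ℝ) (g : SL(2, ℝ)) => G (g * lM v)) :=
    hGc.comp (continuous_snd.mul (hGLC.2.2.2.2.2.1.comp continuous_fst))
  have hint : Integrable (Function.uncurry fun (v : ℝ) (g : SL(2, ℝ)) => G (g * lM v))
      (((volume : Measure ℝ).restrict (Ioc 0 1)).prod (mG.restrict (dG F₀))) := by
    refine Integrable.of_bound hGc2.aestronglyMeasurable (Real.exp (θ * m * T)) ?_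
    exact Eventually.of_forall (fun p => hGb _)
  have hswap := integral_integral_swap hint
  have e1 : ∀ v : ℝ, ∫ g in dG F₀, G (g * lM v) ∂mG = ∫ g in dG F₀, G g ∂mG := fun v =>
    (hG ℝ).1 G (lM v) hGi
  have e2 : ∫ v in Ioc (0 : ℝ) 1, ∫ g in dG F₀, G (g * lM v) ∂mG = ∫ g in dG F₀, G g ∂mG := by
    simp only [e1]
    rw [setIntegral_const]
    simp
  rw [e2] at hswap
  change ∫ g in dG F₀, G g ∂mG ≤ P * (volume F₀).toReal
  rw [hswap]
  have hint2 : Integrable (fun g => ∫ v in Ioc (0 : ℝ) 1, G (g * lM v)) (mG.restrict (dG F₀)) := hint.integral_prod_right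
  have h3 : ∫ g in dG F₀, (∫ v in Ioc (0 : ℝ) 1, G (g * lM v)) ∂mG ≤ ∫ g in dG F₀, P ∂mG := by
    refine integral_mono hint2 (integrable_const P) (fun g => ?_)
    have h4 := hb g
    rw [intervalIntegral.integral_of_le zero_le_one] at h4
    refine le_trans (le_of_eq ?_) h4
    refine integral_congr_ae (Eventually.of_forall (fun v => ?_))
    simp only [hGdef]
    rw [intervalIntegral.integral_const_mul]
  refine h3.trans (le_of_eq ?_)
  rw [setIntegral_const, smul_eq_mul, mul_comm, measureReal_def, hdv]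

theorem QEF (hGLC : GLC_stmt) (hGMG : GMG_stmt) (hGFD : GFD_stmt) (hGBD : GBD_stmt) (hQEX : QEX_stmt)
    (hEP2 : EP2_stmt) : QEF_stmt := by
  intro Γ F hΓ hF h hhc hhi ε hε
  obtain ⟨F₀, hF₀⟩ := QU.A_DOM Γ hΓ
  obtain ⟨hct, hfd, hv0, hvt, htr, -⟩ := QU.A_DOB Γ F₀ hΓ hF₀
  have i1 := QU.A_INV.2.1 Γ
  obtain ⟨hvF, hIF⟩ := htr F hF
  have hInv : QU.Inv Γ h := ⟨hhc, hhi⟩
  set M : ℝ := (∫ z in F₀, h z) / (volume F₀).toReal with hM
  obtain ⟨θ, C, hθ, hC, hQ⟩ := hQEX Γ F₀ h (ε / 4) hΓ hF₀ hInv (by linarith)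
  have hV : 0 < (volume F₀).toReal := ENNReal.toReal_pos hv0.ne' hvt.ne
  have hInv2 : QU.Inv Γ (fun z => θ * h z) := ⟨continuous_const.mul hhc, fun γ z => by
    change θ * h (γ • z) = θ * h z
    rw [hhi γ z]⟩
  obtain ⟨r₀, hr₀, hE⟩ := hEP2 Γ F₀ (fun z => θ * h z) (θ * (M + ε / 2)) hΓ hF₀ hInv2 (by
    refine ⟨max 0 (Real.log (C * (volume F₀).toReal) / (θ * (ε / 4))), fun T hT => ?_⟩
    have hT0 : 0 ≤ T := (le_max_left _ _).trans hT
    have hT1 : Real.log (C * (volume F₀).toReal) / (θ * (ε / 4)) ≤ T := (le_max_right _ _).trans hT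
    have h1 := QEF_iR hGLC hGFD Γ F₀ hΓ hF₀ h hInv θ (C * Real.exp (θ * (M + ε / 4) * T)) T hT0 hθ
      (fun g => hQ T g hT0)
    refine h1.trans ?_
    have h2 : C * (volume F₀).toReal ≤ Real.exp (θ * (ε / 4) * T) := by
      rw [← Real.log_le_iff_le_exp (by positivity)]
      rw [div_le_iff₀ (by positivity)] at hT1
      linarith
    calc C * Real.exp (θ * (M + ε / 4) * T) * (volume F₀).toReal
        = (C * (volume F₀).toReal) * Real.exp (θ * (M + ε / 4) * T) := by ring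
      _ ≤ Real.exp (θ * (ε / 4) * T) * Real.exp (θ * (M + ε / 4) * T) :=
          mul_le_mul_of_nonneg_right h2 (Real.exp_pos _).le
      _ = Real.exp (θ * (M + ε / 2) * T) := by
          rw [← Real.exp_add]
          congr 1
          ring) (θ * ε / 4) (by positivity)
  refine ⟨θ * ε / 2, r₀, by positivity, ?_⟩
  intro r N s φ hr hEF hφ
  have hrpos : 0 < r := by linarith
  rcases Nat.eq_zero_or_pos N with hN | hN
  · subst hN
    rw [Nat.cast_zero]
    exact (Real.rpow_pos_of_pos hrpos _).le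
  have hEF₀ : EFam Γ F₀ r N s φ := by
    refine ⟨hEF.1, hEF.2.1, fun i j => ?_⟩
    rw [← hEF.2.2 i j]
    refine hfd.setIntegral_eq hF (fun γ z => ?_)
    rw [(hEF.2.1 i).2.1 γ z, (hEF.2.1 j).2.1 γ z]
  have hE1 := hE r N s φ hr hN hEF₀
  have hNr : (0 : ℝ) < N := by exact_mod_cast hN
  have hlow : θ * (M + ε) ≤ (∑ j, ∫ z in F₀, (fun z => θ * h z) z * ‖φ j z‖ ^ 2) / N := by
    rw [le_div_iff₀ hNr]
    have h1 : ∀ j ∈ (Finset.univ : Finset (Fin N)), θ * (M + ε) ≤ ∫ z in F₀, (fun z => θ * h z) z * ‖φ j z‖ ^ 2 := by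
      intro j _
      have h2 := hφ j
      rw [hIF h hhi, hvF, hIF (fun z => h z * ‖φ j z‖ ^ 2) (fun γ z => by rw [hhi γ z, (hEF.2.1 j).2.1 γ z])] at h2
      have h3 : ∫ z in F₀, (fun z => θ * h z) z * ‖φ j z‖ ^ 2 = θ * ∫ z in F₀, h z * ‖φ j z‖ ^ 2 := by
        rw [← integral_const_mul]
        refine integral_congr_ae (Eventually.of_forall (fun z => ?_))
        change θ * h z * ‖φ j z‖ ^ 2 = θ * (h z * ‖φ j z‖ ^ 2)
        ring
      rw [h3]
      exact mul_le_mul_of_nonneg_left h2 hθ.le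
    have h4 := Finset.card_nsmul_le_sum _ _ _ h1
    rw [Finset.card_univ, Fintype.card_fin, nsmul_eq_mul] at h4
    linarith
  have hlogr : 0 < Real.log r := Real.log_pos (by linarith)
  have h5 : Real.log N / Real.log r ≤ 1 - θ * ε / 2 := by
    have h6 : θ * (M + ε) ≤ θ * (M + ε / 2) + 1 / 2 * (1 - Real.log N / Real.log r) + θ * ε / 4 := hlow.trans hE1
    nlinarith
  rw [div_le_iff₀ hlogr] at h5
  rw [Real.rpow_def_of_pos hrpos, ← Real.log_le_iff_le_exp hNr]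
  linarith

end Pool.Agent.RS
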